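import Mathlib

set_option autoImplicit false

universe u v

namespace Pool.Agent.Helper920.Gal

/-- automorphisms of a subfield over which an algebraically closed field has a transcendence basis
extend -/
theorem exists_extend {L : Type v} {k : Type u} [Field L] [Field k] [Algebra L k] [IsAlgClosed k]
    (τ : L ≃+* L) : ∃ σ : k ≃+* k, ∀ x : L, σ (algebraMap L k x) = algebraMap L k (τ x) := by
  obtain ⟨ι, v, hv⟩ := exists_isTranscendenceBasis' L k
  let := IsAlgClosed.isAlgClosure_of_transcendence_basis v hv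
  let e : Algebra.adjoin L (Set.range v) ≃+* Algebra.adjoin L (Set.range v) :=
    (hv.1.aevalEquiv.symm.toRingEquiv.trans (MvPolynomial.mapEquiv ι τ)).trans
      hv.1.aevalEquiv.toRingEquiv
  refine ⟨IsAlgClosure.equivOfEquiv k k e, fun x => ?_⟩
  have h1 : algebraMap L k x = algebraMap (Algebra.adjoin L (Set.range v)) k
    (algebraMap L (Algebra.adjoin L (Set.range v)) x) := rfl
  rw [h1, IsAlgClosure.equivOfEquiv_algebraMap]
  have h2 : e (algebraMap L (Algebra.adjoin L (Set.range v)) x) =
      algebraMap L (Algebra.adjoin L (Set.range v)) (τ x) := by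
    change hv.1.aevalEquiv (MvPolynomial.mapEquiv ι τ
      (hv.1.aevalEquiv.symm (algebraMap L (Algebra.adjoin L (Set.range v)) x))) = _
    rw [AlgEquiv.commutes, MvPolynomial.mapEquiv_apply]
    change hv.1.aevalEquiv (MvPolynomial.map (τ : L →+* L) (MvPolynomial.C x)) = _
    rw [MvPolynomial.map_C]
    exact AlgEquiv.commutes _ _
  rw [h2]
  rfl

/-- an algebraic closure of `ℚ` has an automorphism exchanging the primitive cube roots of unity -/
theorem exists_aut_closure : ∃ (w : AlgebraicClosure ℚ)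
    (σ : AlgebraicClosure ℚ ≃ₐ[ℚ] AlgebraicClosure ℚ), w ^ 2 + w + 1 = 0 ∧ σ w ≠ w := by
  have halg : Algebra.IsAlgebraic ℚ (AlgebraicClosure ℚ) := AlgebraicClosure.isAlgebraic ℚ
  have hcl : IsAlgClosure ℚ (AlgebraicClosure ℚ) := ⟨inferInstance, halg⟩
  have hnor : Normal ℚ (AlgebraicClosure ℚ) := IsAlgClosure.normal ℚ (AlgebraicClosure ℚ)
  obtain ⟨w, hw⟩ := HasEnoughRootsOfUnity.exists_primitiveRoot (AlgebraicClosure ℚ) 3
  have hw1 : w ^ 2 + w + 1 = 0 := by
    have := hw.geom_sum_eq_zero (by norm_num)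
    rw [← this]
    simp [Finset.sum_range_succ]
    ring
  have hirr : Irreducible (Polynomial.cyclotomic 3 ℚ) :=
    Polynomial.cyclotomic.irreducible_rat (by norm_num)
  have hmin : minpoly ℚ w = Polynomial.cyclotomic 3 ℚ := by
    symm
    refine minpoly.eq_of_irreducible_of_monic hirr ?_ (Polynomial.cyclotomic.monic 3 ℚ)
    rw [Polynomial.cyclotomic_three]
    simpa using hw1
  have hne : w ^ 2 ≠ w := by
    intro h
    have h3 : w * (w - 1) = 0 := by ring_nf; rw [h]; ring
    rcases mul_eq_zero.1 h3 with h4 | h4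
    · exact hw.ne_zero (by norm_num) h4
    · exact hw.ne_one (by norm_num) (sub_eq_zero.1 h4)
  obtain ⟨σ, hσ⟩ := minpoly.exists_algEquiv_of_root' (K := ℚ) (x := w ^ 2) (y := w)
    (Algebra.IsAlgebraic.isAlgebraic w) (by
      rw [hmin, Polynomial.cyclotomic_three]
      simp only [map_add, map_pow, Polynomial.aeval_X, map_one]
      have h3 : w ^ 3 = 1 := hw.pow_eq_one
      linear_combination hw1 + w * h3)
  exact ⟨w, σ, hw1, by rw [hσ]; exact hne⟩

/-- over an algebraically closed field of characteristic zero there is an automorphism exchanging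
the primitive cube roots of unity -/
theorem exists_aut (k : Type u) [Field k] [IsAlgClosed k] [CharZero k] :
    ∃ (w : k) (σ : k ≃+* k), w ^ 2 + w + 1 = 0 ∧ σ w ≠ w := by
  have halg : Algebra.IsAlgebraic ℚ (AlgebraicClosure ℚ) := AlgebraicClosure.isAlgebraic ℚ
  obtain ⟨w, τ, hw, hτ⟩ := exists_aut_closure
  let i : AlgebraicClosure ℚ →ₐ[ℚ] k := IsAlgClosed.lift
  let := i.toRingHom.toAlgebra
  obtain ⟨σ, hσ⟩ := exists_extend (k := k) τ.toRingEquiv
  refine ⟨i w, σ, ?_, ?_⟩
  · rw [← map_pow, ← map_add, ← map_one i, ← map_add, hw, map_zero]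
  · intro h
    have h1 : σ (i w) = i (τ w) := hσ w
    rw [h1] at h
    exact hτ (i.injective h)

end Pool.Agent.Helper920.Gal
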